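import Pool.Agent.N516.SC.Stm

/-!
# NB: the neighbours of the vertices of `glue D`
-/

set_option autoImplicit false

namespace Pool.Agent.N3.SC

open Pool.Agent.N516.SC

namespace NB

variable {D : Fin 3 → Pool.Agent.N516.SC.Pointed}

theorem adj_iff (a b : W D) : (glue D).Adj a b ↔ a ≠ b ∧ (Rel D a b ∨ Rel D b a) := by
  unfold glue
  exact SimpleGraph.fromRel_adj _ _ _

theorem rel_hu (w : W D) : ¬ Rel D (hu D) w := by
  intro h
  cases h

theorem rel_to_hu (w : W D) (h : Rel D w (hu D)) : ∃ i, w = ce D i := by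
  cases h with
  | hub i => exact ⟨i, rfl⟩

theorem hu_part (w : W D) :
    (glue D).Adj (hu D) w ↔ w = ce D 0 ∨ w = ce D 1 ∨ w = ce D 2 := by
  rw [adj_iff]
  constructor
  · rintro ⟨_, h | h⟩
    · exact absurd h (rel_hu w)
    · obtain ⟨i, hi⟩ := rel_to_hu w h
      fin_cases i
      · exact Or.inl hi
      · exact Or.inr (Or.inl hi)
      · exact Or.inr (Or.inr hi)
  · rintro (h | h | h) <;> subst h
    · exact ⟨by simp, Or.inr (Rel.hub 0)⟩
    · exact ⟨by simp, Or.inr (Rel.hub 1)⟩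
    · exact ⟨by simp, Or.inr (Rel.hub 2)⟩

theorem rel_ce (i : Fin 3) (w : W D) (h : Rel D (ce D i) w) :
    w = hu D ∨ ∃ t, w = ar D i t := by
  cases h with
  | arm i t => exact Or.inr ⟨t, rfl⟩
  | hub i => exact Or.inl rfl

theorem rel_to_ce (i : Fin 3) (w : W D) : ¬ Rel D w (ce D i) := by
  intro h
  cases h

theorem ce_part (i : Fin 3) (w : W D) :
    (glue D).Adj (ce D i) w ↔ w = hu D ∨ w = ar D i 0 ∨ w = ar D i 1 := by
  rw [adj_iff]
  constructor
  · rintro ⟨_, h | h⟩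
    · rcases rel_ce i w h with h | ⟨t, ht⟩
      · exact Or.inl h
      · fin_cases t
        · exact Or.inr (Or.inl ht)
        · exact Or.inr (Or.inr ht)
    · exact absurd h (rel_to_ce i w)
  · rintro (h | h | h) <;> subst h
    · exact ⟨by simp, Or.inl (Rel.hub i)⟩
    · exact ⟨by simp, Or.inl (Rel.arm i 0)⟩
    · exact ⟨by simp, Or.inl (Rel.arm i 1)⟩

theorem rel_ar (i : Fin 3) (t : Fin 2) (w : W D) (h : Rel D (ar D i t) w) :
    w = px D (i + 1) t ∨ w = qx D (i - 1) t := by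
  cases h with
  | toX i j t v hj h =>
    subst hj
    left
    have hv : v = ⟨(D (i + 1)).p t, by rw [← h]; exact v.2⟩ := Subtype.ext h
    rw [hv]
    rfl
  | toY i j t v hj h =>
    subst hj
    right
    have hv : v = ⟨(D (i - 1)).q t, by rw [← h]; exact v.2⟩ := Subtype.ext h
    rw [hv]
    rfl

theorem rel_to_ar (i : Fin 3) (t : Fin 2) (w : W D) (h : Rel D w (ar D i t)) : w = ce D i := by
  cases h with
  | arm i t => rfl

theorem ar_part (i : Fin 3) (t : Fin 2) (w : W D) :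
    (glue D).Adj (ar D i t) w ↔ w = ce D i ∨ w = px D (i + 1) t ∨ w = qx D (i - 1) t := by
  rw [adj_iff]
  constructor
  · rintro ⟨_, h | h⟩
    · exact Or.inr (rel_ar i t w h)
    · exact Or.inl (rel_to_ar i t w h)
  · rintro (h | h | h) <;> subst h
    · exact ⟨by simp, Or.inr (Rel.arm i t)⟩
    · exact ⟨by simp [px], Or.inl (Rel.toX i (i + 1) t _ rfl rfl)⟩
    · exact ⟨by simp [qx], Or.inl (Rel.toY i (i - 1) t _ rfl rfl)⟩

theorem rel_inner (i j : Fin 3) (v : Inner (D i)) (w : Inner (D j))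
    (h : Rel D (.inl ⟨i, v⟩) (.inl ⟨j, w⟩)) :
    ∃ e : i = j, (D j).G.Adj (e ▸ v).1 w.1 := by
  cases h with
  | inner i v w h => exact ⟨rfl, h⟩

theorem inner_part (i : Fin 3) (v w : Inner (D i)) :
    (glue D).Adj (.inl ⟨i, v⟩) (.inl ⟨i, w⟩) ↔ (D i).G.Adj v.1 w.1 := by
  rw [adj_iff]
  constructor
  · rintro ⟨_, h | h⟩
    · obtain ⟨_, h⟩ := rel_inner i i v w h
      exact h
    · obtain ⟨_, h⟩ := rel_inner i i w v h
      exact h.symm
  · intro h
    refine ⟨?_, Or.inl (Rel.inner i v w h)⟩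
    intro e
    have h1 : (⟨i, v⟩ : Σ i, Inner (D i)) = ⟨i, w⟩ := Sum.inl.inj e
    have h2 : v = w := by
      have := (Sigma.mk.inj_iff.mp h1).2
      exact eq_of_heq this
    subst h2
    exact h.ne rfl

theorem inner_ne (i j : Fin 3) (v : Inner (D i)) (w : Inner (D j)) (hij : i ≠ j) :
    ¬ (glue D).Adj (.inl ⟨i, v⟩) (.inl ⟨j, w⟩) := by
  rw [adj_iff]
  rintro ⟨_, h | h⟩
  · obtain ⟨e, _⟩ := rel_inner i j v w h
    exact hij e
  · obtain ⟨e, _⟩ := rel_inner j i w v h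
    exact hij e.symm

end NB

/-- **NB.** -/
theorem t_NB : S_NB := fun _ =>
  ⟨NB.hu_part, NB.ce_part, NB.ar_part, NB.inner_part, NB.inner_ne⟩

end Pool.Agent.N3.SC
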